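import Pool.Agent.Helper61.QL.Final

/-!
# Nonnegatively curved vector bundles over `S² × S²` and `CP² # -CP²` with fibred souls

`M_m = (S³ × S²)/S¹` (`S² × S²` for `m` even, `CP² # -CP²` for `m` odd), as the `Model` `Mm m`.  All
objects on `M_m` are written as `S¹`-invariant (basic) objects on `X = S³ × S² ⊆ W`; see
`Pool.Agent.Helper61.QM.Defs`, `Pool.Agent.Helper61.QM.StmtS` and `Pool.Agent.Helper61.QM.StmtL` for the
definitions.  `e, B` is a Euclidean vector bundle `E` of rank `k` with a metric connection (`IsBundle`),
`gM` a Riemannian metric of `M_m` (`IsBase`), `γ` a metric along the fibres of `E` (`IsFibre`), and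
`G = gM(dP, dP) + γ_{(P,v)}(dv - B v, dv - B v)` the metric of the tube `|v| < ρ` in the total space.

By theorems of Cheeger-Gromoll, Perelman and Wilking every complete metric of nonnegative sectional
curvature with soul `(M_m, gM)` has this form near its soul, `E` being the normal bundle of the soul
(this is quoted, it is not used or proved here).
-/

set_option autoImplicit false

namespace Pool.Agent.Results.MP_0ebdb3_gt.FibredSouls

open Pool.Agent Pool.Agent.Helper61.QM

/-- If the metric `G` has nonnegative sectional curvature on the tube `|v| < ρ` and the metric of the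
base is a product metric (`m = 0`), or of Kaluza-Klein type (`φ(t)² H + K` for an arbitrary connection
of `M_m → S²`, with fibre metrics `K` depending on all variables), or flat on the planes `∂_r, ∂_θ` of
some twisted polar coordinates, then the bundle is an orthogonal sum of continuous bundles of rank 2 and
at most one of rank 1: its structure group reduces to a torus. -/
theorem result (n k : ℕ) (m : ℤ) (e : W → Matrix (Fin n) (Fin n) ℝ)
    (B : W → W → Matrix (Fin n) (Fin n) ℝ) (gM : W → W → W → ℝ)
    (γ : W → (Fin n → ℝ) → (Fin n → ℝ) → (Fin n → ℝ) → ℝ) (ρ : ℝ)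
    (hE : IsBundle (Mm m) k e B) (hM : IsBase (Mm m) gM) (hγ : IsFibre (Mm m) ρ e γ) (hρ : 0 < ρ)
    (hclass : (m = 0 ∧ IsProd gM) ∨ KK gM ∨ FlatTw gM) (hsec : TubeSec (Mm m) k ρ e B gM γ) :
    Splits (Mm m) e :=
  Pool.Agent.Helper61.QL.allML n k m e B gM γ ρ hE hM hγ hρ hclass hsec

end Pool.Agent.Results.MP_0ebdb3_gt.FibredSouls
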