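import Pool.Agent.Helper34.SW.Main

/-!
# Nonnegatively curved vector bundles over `S² × S²`, `CP² # -CP²`, `CP² # CP²`: souls without symmetry

`M_{a,b} = (S³ × S³)/T²` as the `Model` `Mab a b`: `b = 0` gives `S² × S²` (`a` even) and `CP² # -CP²`
(`a` odd), `(a, b) = (1, 2)` gives `CP² # CP²`.  All objects on `M_{a,b}` are written as `T²`-invariant
(basic) objects on `X = S³ × S³ ⊆ W2`; see `Pool.Agent.Helper61.QM.Defs` and
`Pool.Agent.Helper61.QM.StmtT` for the definitions.  `e, B` is a Euclidean vector bundle `E` of rank `k`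
with a metric connection (`IsBundle`), `gM` a Riemannian metric of `M_{a,b}` (`IsBase`), `γ` a metric
along the fibres of `E` (`IsFibre`), and `G = gM(dP, dP) + γ_{(P,v)}(dv - B v, dv - B v)` the metric of the
tube `|v| < ρ` in the total space.

Nothing is assumed on the bundle, the connection or `γ`, and `gM` need not have any symmetry.  The
conditions on `gM` (`Pool.Agent.Helper34.SW.Stmt`) are formulated in twisted polar coordinates
`(r, s, α, β) ↦ ((cos r, e^{i(α + φ₁(r,s))} sin r), (cos s, e^{i(β + φ₂(r,s))} sin s))`: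

* `Swept`: each surface `T_{α,β}` (`α, β = const`) is an immersed torus with `K_M ≤ K_T` (for example, a
  totally geodesic torus), or satisfies `K_M ≤ 0` on the planes `∂_r, ∂_s`;
* `Neck`: `g(∂_s, c) = ψ(s) c_s`, and `g(∂_r, ·)` does not depend on `s` (or `r, s` exchanged).

Every metric of nonnegative curvature on `CP² # CP²` that contains a neck `S³ × I` over the round `S³`
satisfies `Neck` in suitable coordinates (this is not proved here).
-/

set_option autoImplicit false

namespace Pool.Agent.Results.MP_0ebdb3_gt.SweptSouls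

open Pool.Agent Pool.Agent.Helper61.QM Pool.Agent.Helper34.SW

/-- If the metric `G` has nonnegative sectional curvature on the tube `|v| < ρ` and the metric of the
base `M_{a,b}` (`S² × S²`, `CP² # -CP²` or `CP² # CP²`) is swept by tori or of neck type, then the bundle
is an orthogonal sum of continuous bundles of rank 2 and at most one of rank 1: its structure group
reduces to a torus. -/
theorem result (n k : ℕ) (a b : ℤ) (e : W2 → Matrix (Fin n) (Fin n) ℝ)
    (B : W2 → W2 → Matrix (Fin n) (Fin n) ℝ) (gM : W2 → W2 → W2 → ℝ)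
    (γ : W2 → (Fin n → ℝ) → (Fin n → ℝ) → (Fin n → ℝ) → ℝ) (ρ : ℝ)
    (hab : b = 0 ∨ (a = 1 ∧ b = 2)) (hE : IsBundle (Mab a b) k e B) (hM : IsBase (Mab a b) gM)
    (hγ : IsFibre (Mab a b) ρ e γ) (hρ : 0 < ρ) (hclass : Swept gM ∨ Neck gM)
    (hsec : TubeSec (Mab a b) k ρ e B gM γ) : Splits (Mab a b) e :=
  Pool.Agent.Helper34.SW.main n k a b e B gM γ ρ hab hE hM hγ hρ hclass hsec

end Pool.Agent.Results.MP_0ebdb3_gt.SweptSouls
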