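import Pool.Agent.Helper61.QT.FinalP

/-!
# Nonnegatively curved vector bundles over `S² × S²`, `CP² # -CP²`, `CP² # CP²` with toric souls

`M_{a,b} = (S³ × S³)/T²` as the `Model` `Mab a b`: `b = 0` gives `S² × S²` (`a` even) and `CP² # -CP²`
(`a` odd), `(a, b) = (1, 2)` gives `CP² # CP²`.  All objects on `M_{a,b}` are written as `T²`-invariant
(basic) objects on `X = S³ × S³ ⊆ W2`; see `Pool.Agent.Helper61.QM.Defs`, `Pool.Agent.Helper61.QM.StmtT`
and `Pool.Agent.Helper61.QM.StmtP` for the definitions.  `e, B` is a Euclidean vector bundle `E` of rank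
`k` with a metric connection (`IsBundle`), `gM` a Riemannian metric of `M_{a,b}` (`IsBase`), `γ` a metric
along the fibres of `E` (`IsFibre`), and `G = gM(dP, dP) + γ_{(P,v)}(dv - B v, dv - B v)` the metric of the
tube `|v| < ρ` in the total space.  The metric `gM` is invariant under the torus acting on `M_{a,b}` by
rotations of the coordinates (`IsRot`); nothing is assumed on the bundle, the connection or `γ`.

By theorems of Cheeger-Gromoll, Perelman and Wilking every complete metric of nonnegative sectional
curvature with soul `(M_{a,b}, gM)` has this form near its soul, `E` being the normal bundle of the soul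
(this is quoted, it is not used or proved here).
-/

set_option autoImplicit false

namespace Pool.Agent.Results.MP_0ebdb3_gt.TorusSouls

open Pool.Agent Pool.Agent.Helper61.QM

/-- If the metric `G` has nonnegative sectional curvature on the tube `|v| < ρ` and the metric of the
base `M_{a,b}` (`S² × S²`, `CP² # -CP²` or `CP² # CP²`) is invariant under the torus, then the bundle is an
orthogonal sum of continuous bundles of rank 2 and at most one of rank 1: its structure group reduces to
a torus. -/
theorem result (n k : ℕ) (a b : ℤ) (e : W2 → Matrix (Fin n) (Fin n) ℝ)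
    (B : W2 → W2 → Matrix (Fin n) (Fin n) ℝ) (gM : W2 → W2 → W2 → ℝ)
    (γ : W2 → (Fin n → ℝ) → (Fin n → ℝ) → (Fin n → ℝ) → ℝ) (ρ : ℝ)
    (hab : b = 0 ∨ (a = 1 ∧ b = 2)) (hE : IsBundle (Mab a b) k e B) (hM : IsBase (Mab a b) gM)
    (hγ : IsFibre (Mab a b) ρ e γ) (hρ : 0 < ρ) (hrot : IsRot gM)
    (hsec : TubeSec (Mab a b) k ρ e B gM γ) : Splits (Mab a b) e :=
  Pool.Agent.Helper61.QT.allMP n k a b e B gM γ ρ hab hE hM hγ hρ hrot hsec

end Pool.Agent.Results.MP_0ebdb3_gt.TorusSouls
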